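import Pool.Agent.H33R3.Bom.Stmts3
import Pool.Agent.H33R3.Bom.I1

set_option autoImplicit false

/-! Task E3 of project H33-BOM, part 3 (helper779). -/

namespace Pool.Agent.H33R3.Bom

open Complex Metric Set Filter Topology

namespace E3

/-- power series with real coefficients in the unit disc -/
def PS (g : ℂ → ℂ) (c : ℕ → ℝ) : Prop :=
  ∀ z : ℂ, ‖z‖ < 1 → HasSum (fun k : ℕ => (c k : ℂ) * z ^ k) (g z)

/-- convolution -/
def cv (c d : ℕ → ℝ) (n : ℕ) : ℝ := ∑ ij ∈ Finset.HasAntidiagonal.antidiagonal n, c ij.1 * d ij.2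

/-- shift -/
def sh (c : ℕ → ℝ) (n : ℕ) : ℝ := if n = 0 then 0 else c (n - 1)

lemma PS_mul {g h : ℂ → ℂ} {c d : ℕ → ℝ} (hg : PS g c) (hh : PS h d) :
    PS (fun z => g z * h z) (cv c d) := by
  intro z hz
  have h1 := hg z hz
  have h2 := hh z hz
  have s1 := h1.summable.norm
  have s2 := h2.summable.norm
  have e := tsum_mul_tsum_eq_tsum_sum_antidiagonal_of_summable_norm s1 s2
  have s := (summable_norm_sum_mul_antidiagonal_of_summable_norm s1 s2).of_norm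
  have h3 := s.hasSum
  rw [← e, h1.tsum_eq, h2.tsum_eq] at h3
  have e2 : (fun k : ℕ => ((cv c d k : ℝ) : ℂ) * z ^ k) = fun n =>
      ∑ kl ∈ Finset.HasAntidiagonal.antidiagonal n,
        (c kl.1 : ℂ) * z ^ kl.1 * ((d kl.2 : ℂ) * z ^ kl.2) := by
    funext n
    unfold cv
    push_cast
    rw [Finset.sum_mul]
    apply Finset.sum_congr rfl
    intro ij hij
    rw [← Finset.HasAntidiagonal.mem_antidiagonal.1 hij, pow_add]
    ring
  rw [e2]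
  exact h3

lemma PS_sh {g : ℂ → ℂ} {c : ℕ → ℝ} (hg : PS g c) : PS (fun z => z * g z) (sh c) := by
  intro z hz
  have h1 := (hg z hz).mul_left z
  have e : (fun k : ℕ => z * ((c k : ℂ) * z ^ k)) =
      fun k : ℕ => ((sh c (k + 1) : ℝ) : ℂ) * z ^ (k + 1) := by
    funext n
    have : sh c (n + 1) = c n := by
      unfold sh
      rw [if_neg (Nat.succ_ne_zero n), Nat.add_sub_cancel]
    rw [this]
    ring
  rw [e] at h1
  have h3 := (hasSum_nat_add_iff (f := fun k : ℕ => ((sh c k : ℝ) : ℂ) * z ^ k) 1).1 h1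
  have h0 : ((sh c 0 : ℝ) : ℂ) = 0 := by
    unfold sh
    simp
  rw [Finset.sum_range_one, h0, zero_mul, add_zero] at h3
  exact h3

lemma PS_geo (k : ℕ) : PS (fun z => 1 / (1 - z) ^ (k + 1)) (fun n => ((n + k).choose k : ℝ)) := by
  intro z hz
  have h := hasSum_choose_mul_geometric_of_norm_lt_one k hz
  have e : (fun n : ℕ => ((((n + k).choose k : ℕ) : ℝ) : ℂ) * z ^ n) =
      fun n : ℕ => (((n + k).choose k : ℕ) : ℂ) * z ^ n := by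
    funext n
    push_cast
    rfl
  exact e ▸ h

lemma PS_ser {q : ℕ → ℝ} {ρ C : ℝ} (hρ : 0 < ρ) (hρ1 : ρ < 1) (hq : ∀ j, |q j| ≤ C * ρ ^ j) :
    PS (fun z => ∑' j : ℕ, (q j : ℂ) * z ^ j) q := by
  intro z hz
  apply Summable.hasSum
  apply Summable.of_norm_bounded (g := fun j => C * ρ ^ j)
  · exact (summable_geometric_of_lt_one hρ.le hρ1).mul_left C
  · intro j
    rw [norm_mul, Complex.norm_real, Real.norm_eq_abs, norm_pow]
    have h1 : ‖z‖ ^ j ≤ 1 := pow_le_one₀ (norm_nonneg _) hz.le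
    calc |q j| * ‖z‖ ^ j ≤ |q j| * 1 := mul_le_mul_of_nonneg_left h1 (abs_nonneg _)
      _ ≤ C * ρ ^ j := by rw [mul_one]; exact hq j

lemma ser_diff {q : ℕ → ℝ} {ρ C : ℝ} (hρ : 0 < ρ) (hρ1 : ρ < 1) (hq : ∀ j, |q j| ≤ C * ρ ^ j) :
    DifferentiableOn ℂ (fun z => ∑' j : ℕ, (q j : ℂ) * z ^ j) (ball 0 1) := by
  apply Complex.differentiableOn_tsum_of_summable_norm
    ((summable_geometric_of_lt_one hρ.le hρ1).mul_left C)
  · intro j
    fun_prop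
  · exact isOpen_ball
  · intro j w hw
    have hz : ‖w‖ < 1 := by simpa using hw
    rw [norm_mul, Complex.norm_real, Real.norm_eq_abs, norm_pow]
    have h1 : ‖w‖ ^ j ≤ 1 := pow_le_one₀ (norm_nonneg _) hz.le
    calc |q j| * ‖w‖ ^ j ≤ |q j| * 1 := mul_le_mul_of_nonneg_left h1 (abs_nonneg _)
      _ ≤ C * ρ ^ j := by rw [mul_one]; exact hq j

lemma ser_bound {q : ℕ → ℝ} {ρ C : ℝ} (hρ : 0 < ρ) (hρ1 : ρ < 1) (hq : ∀ j, |q j| ≤ C * ρ ^ j)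
    {z : ℂ} (hz : ‖z‖ < 1) : ‖∑' j : ℕ, (q j : ℂ) * z ^ j‖ ≤ C * (1 - ρ)⁻¹ := by
  apply tsum_of_norm_bounded ((hasSum_geometric_of_lt_one hρ.le hρ1).mul_left C)
  intro j
  rw [norm_mul, Complex.norm_real, Real.norm_eq_abs, norm_pow]
  have h1 : ‖z‖ ^ j ≤ 1 := pow_le_one₀ (norm_nonneg _) hz.le
  calc |q j| * ‖z‖ ^ j ≤ |q j| * 1 := mul_le_mul_of_nonneg_left h1 (abs_nonneg _)
    _ ≤ C * ρ ^ j := by rw [mul_one]; exact hq j

lemma cv_nonneg {c d : ℕ → ℝ} (hc : ∀ j, 0 ≤ c j) (hd : ∀ j, 0 ≤ d j) (n : ℕ) : 0 ≤ cv c d n :=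
  Finset.sum_nonneg fun _ _ => mul_nonneg (hc _) (hd _)

lemma sh_nonneg {c : ℕ → ℝ} (hc : ∀ j, 0 ≤ c j) (n : ℕ) : 0 ≤ sh c n := by
  unfold sh
  split_ifs
  · exact le_rfl
  · exact hc _

lemma cv_range (c d : ℕ → ℝ) (n : ℕ) : cv c d n = ∑ k ∈ Finset.range (n + 1), c k * d (n - k) := by
  unfold cv
  exact Finset.Nat.sum_antidiagonal_eq_sum_range_succ (fun i j => c i * d j) n

lemma cv_lower {q : ℕ → ℝ} (hq : ∀ j, 0 ≤ q j) {n J : ℕ} (h : 2 * J + 3 ≤ n) :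
    (∑ i ∈ Finset.range (J + 1), q i) ^ 2 * ((n - 2 * J).choose 3 : ℝ) ≤
      cv q (cv q (fun l => ((l + 3).choose 3 : ℝ))) (n - 3) := by
  have ht : ∀ l : ℕ, (0 : ℝ) ≤ ((l + 3).choose 3 : ℝ) := fun l => by positivity
  rw [cv_range, sq, Finset.sum_mul, Finset.sum_mul]
  have hsub : Finset.range (J + 1) ⊆ Finset.range (n - 3 + 1) := by
    intro i hi
    rw [Finset.mem_range] at hi ⊢
    omega
  refine le_trans ?_ (Finset.sum_le_sum_of_subset_of_nonneg hsub (fun i _ _ =>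
    mul_nonneg (hq i) (cv_nonneg hq ht _)))
  apply Finset.sum_le_sum
  intro i hi
  rw [Finset.mem_range] at hi
  rw [mul_assoc]
  apply mul_le_mul_of_nonneg_left _ (hq i)
  rw [cv_range, Finset.sum_mul]
  have hsub2 : Finset.range (J + 1) ⊆ Finset.range (n - 3 - i + 1) := by
    intro j hj
    rw [Finset.mem_range] at hj ⊢
    omega
  refine le_trans ?_ (Finset.sum_le_sum_of_subset_of_nonneg hsub2 (fun j _ _ =>
    mul_nonneg (hq j) (ht _)))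
  apply Finset.sum_le_sum
  intro j hj
  rw [Finset.mem_range] at hj
  apply mul_le_mul_of_nonneg_left _ (hq j)
  have : (n - 2 * J).choose 3 ≤ (n - 3 - i - j + 3).choose 3 := Nat.choose_le_choose 3 (by omega)
  exact_mod_cast this

/-- the algebraic identity -/
lemma ident (w T X : ℂ) (hT : T ≠ 0) (hX : T + w * X ≠ 0) :
    w / (T + w * X) ^ 2 = w / T ^ 2 - 2 * w ^ 2 * X / T ^ 3 + 3 * w ^ 3 * X ^ 2 / T ^ 4 -
      w ^ 4 * X ^ 3 * (4 * T + 3 * (w * X)) / (T ^ 4 * (T + w * X) ^ 2) := by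
  field_simp
  ring

/-- the remainder -/
noncomputable def Rem (Q M : ℂ → ℂ) (ε : ℝ) (w : ℂ) : ℂ :=
  3 * (2 * I * (ε : ℂ) ^ 3 * Q w * M w + (ε : ℂ) ^ 4 * M w ^ 2) / (1 - w) ^ 4 -
    w * (I * ε * Q w + (ε : ℂ) ^ 2 * M w) ^ 3 *
      (4 * (1 - w) + 3 * (w * (I * ε * Q w + (ε : ℂ) ^ 2 * M w))) /
      ((1 - w) ^ 4 * (1 - w + w * (I * ε * Q w + (ε : ℂ) ^ 2 * M w)) ^ 2)

lemma expand (Q M : ℂ → ℂ) (ε : ℝ) (w : ℂ) (hT : 1 - w ≠ 0)
    (hX : 1 - w + w * (I * ε * Q w + (ε : ℂ) ^ 2 * M w) ≠ 0) :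
    w / (1 - w + w * (I * ε * Q w + (ε : ℂ) ^ 2 * M w)) ^ 2 =
      (w * (1 / (1 - w) ^ (1 + 1)) - 2 * I * ε * (w * (w * (Q w * (1 / (1 - w) ^ (2 + 1))))) -
        2 * (ε : ℂ) ^ 2 * (w * (w * (M w * (1 / (1 - w) ^ (2 + 1))))) -
        3 * (ε : ℂ) ^ 2 * (w * (w * (w * (Q w * (Q w * (1 / (1 - w) ^ (3 + 1)))))))) +
      w ^ 3 * Rem Q M ε w := by
  rw [ident w (1 - w) _ hT hX]
  have hI : (I * ε * Q w + (ε : ℂ) ^ 2 * M w) ^ 2 = -(ε : ℂ) ^ 2 * Q w ^ 2 +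
      (2 * I * (ε : ℂ) ^ 3 * Q w * M w + (ε : ℂ) ^ 4 * M w ^ 2) := by
    have := I_sq
    linear_combination ((ε : ℂ) ^ 2 * Q w ^ 2) * this
  rw [hI]
  unfold Rem
  set X := I * ε * Q w + (ε : ℂ) ^ 2 * M w with hXdef
  have e1 : 2 * w ^ 2 * X / (1 - w) ^ 3 = 2 * I * ε * (w * (w * (Q w * (1 / (1 - w) ^ (2 + 1))))) +
        2 * (ε : ℂ) ^ 2 * (w * (w * (M w * (1 / (1 - w) ^ (2 + 1))))) := by
    rw [hXdef]
    ring
  rw [e1]
  ring

lemma coeff_cauchy {g : ℂ → ℂ} {B : ℝ} (hg : DifferentiableOn ℂ g (closedBall 0 (1 / 2)))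
    (hB : ∀ z : ℂ, ‖z‖ ≤ 1 / 2 → ‖g z‖ ≤ B) (n : ℕ) : ‖coeff n g‖ ≤ B * 2 ^ n := by
  have hd : DiffContOnCl ℂ g (ball 0 (1 / 2)) := by
    apply DifferentiableOn.diffContOnCl
    rw [closure_ball (0 : ℂ) (by norm_num : (1 / 2 : ℝ) ≠ 0)]
    exact hg
  have h1 := norm_iteratedDeriv_le_of_forall_mem_sphere_norm_le (f := g) (c := 0) n
    (by norm_num : (0 : ℝ) < 1 / 2) hd (C := B) (fun z hz => hB z (by
      have : ‖z‖ = 1 / 2 := by simpa using hz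
      exact this.le))
  have hf : (0 : ℝ) < n.factorial := by exact_mod_cast n.factorial_pos
  rw [coeff, norm_div, Complex.norm_natCast, div_le_iff₀ hf]
  refine h1.trans (le_of_eq ?_)
  rw [one_div, inv_pow, div_inv_eq_mul]
  ring

lemma rem_bound {A ε : ℝ} (hA : 0 ≤ A) (hε : 0 < ε) (hε1 : ε ≤ 1) (hεA : 8 * (ε * A) ≤ 1)
    {Q M : ℂ → ℂ} {w : ℂ} (hw : ‖w‖ ≤ 1 / 2) (hQ : ‖Q w‖ ≤ A) (hM : ‖M w‖ ≤ A) :
    1 - w ≠ 0 ∧ 1 - w + w * (I * ε * Q w + (ε : ℂ) ^ 2 * M w) ≠ 0 ∧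
      ‖Rem Q M ε w‖ ≤ (144 * A ^ 2 + 14336 * A ^ 3) * ε ^ 3 := by
  have hT1 : 1 / 2 ≤ ‖1 - w‖ := by
    have := norm_sub_norm_le (1 : ℂ) w
    rw [norm_one] at this
    linarith
  have hT2 : ‖1 - w‖ ≤ 3 / 2 := by
    have := norm_sub_le (1 : ℂ) w
    rw [norm_one] at this
    linarith
  have hne : ‖(ε : ℂ)‖ = ε := by rw [Complex.norm_real, Real.norm_eq_abs, abs_of_pos hε]
  set X : ℂ := I * ε * Q w + (ε : ℂ) ^ 2 * M w with hX
  have hXb : ‖X‖ ≤ 2 * (ε * A) := by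
    refine (norm_add_le _ _).trans ?_
    rw [norm_mul, norm_mul, Complex.norm_I, hne, norm_mul, norm_pow, hne]
    have h1 : ε * ‖Q w‖ ≤ ε * A := mul_le_mul_of_nonneg_left hQ hε.le
    have h2 : ε ^ 2 * ‖M w‖ ≤ ε * A := by
      calc ε ^ 2 * ‖M w‖ ≤ ε ^ 2 * A := mul_le_mul_of_nonneg_left hM (by positivity)
        _ = ε * (ε * A) := by ring
        _ ≤ 1 * (ε * A) := mul_le_mul_of_nonneg_right hε1 (by positivity)
        _ = ε * A := one_mul _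
    linarith
  have hX4 : ‖X‖ ≤ 1 / 4 := by linarith
  have hwX : ‖w * X‖ ≤ 1 / 8 := by
    rw [norm_mul]
    calc ‖w‖ * ‖X‖ ≤ 1 / 2 * (1 / 4) := mul_le_mul hw hX4 (norm_nonneg _) (by norm_num)
      _ = 1 / 8 := by norm_num
  have hTX : 1 / 4 ≤ ‖1 - w + w * X‖ := by
    have h1 := norm_sub_norm_le (1 - w) (-(w * X))
    rw [norm_neg, sub_neg_eq_add] at h1
    linarith
  have hTne : 1 - w ≠ 0 := by
    intro h
    rw [h, norm_zero] at hT1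
    linarith
  have hTXne : 1 - w + w * X ≠ 0 := by
    intro h
    rw [h, norm_zero] at hTX
    linarith
  refine ⟨hTne, hTXne, ?_⟩
  unfold Rem
  rw [← hX]
  have hT4 : (1 / 16 : ℝ) ≤ ‖(1 - w) ^ 4‖ := by
    rw [norm_pow]
    calc (1 / 16 : ℝ) = (1 / 2) ^ 4 := by norm_num
      _ ≤ ‖1 - w‖ ^ 4 := pow_le_pow_left₀ (by norm_num) hT1 4
  have hTX2 : (1 / 16 : ℝ) ≤ ‖(1 - w + w * X) ^ 2‖ := by
    rw [norm_pow]
    calc (1 / 16 : ℝ) = (1 / 4) ^ 2 := by norm_num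
      _ ≤ ‖1 - w + w * X‖ ^ 2 := pow_le_pow_left₀ (by norm_num) hTX 2
  have hε3 : 0 < ε ^ 3 := by positivity
  have b1 : ‖3 * (2 * I * (ε : ℂ) ^ 3 * Q w * M w + (ε : ℂ) ^ 4 * M w ^ 2) / (1 - w) ^ 4‖ ≤
      144 * A ^ 2 * ε ^ 3 := by
    rw [norm_div, div_le_iff₀ (lt_of_lt_of_le (by norm_num) hT4)]
    have h1 : ‖3 * (2 * I * (ε : ℂ) ^ 3 * Q w * M w + (ε : ℂ) ^ 4 * M w ^ 2)‖ ≤
        9 * (A ^ 2 * ε ^ 3) := by
      rw [norm_mul, Complex.norm_ofNat]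
      have h2 : ‖2 * I * (ε : ℂ) ^ 3 * Q w * M w‖ ≤ 2 * (A ^ 2 * ε ^ 3) := by
        rw [norm_mul, norm_mul, norm_mul, norm_mul, Complex.norm_ofNat, Complex.norm_I, norm_pow, hne,
          mul_one]
        calc 2 * ε ^ 3 * ‖Q w‖ * ‖M w‖ ≤ 2 * ε ^ 3 * A * A := by gcongr
          _ = 2 * (A ^ 2 * ε ^ 3) := by ring
      have h3 : ‖(ε : ℂ) ^ 4 * M w ^ 2‖ ≤ A ^ 2 * ε ^ 3 := by
        rw [norm_mul, norm_pow, hne, norm_pow]
        calc ε ^ 4 * ‖M w‖ ^ 2 ≤ ε ^ 4 * A ^ 2 := by gcongr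
          _ = ε * (A ^ 2 * ε ^ 3) := by ring
          _ ≤ 1 * (A ^ 2 * ε ^ 3) := mul_le_mul_of_nonneg_right hε1 (by positivity)
          _ = A ^ 2 * ε ^ 3 := one_mul _
      have h4 := norm_add_le (2 * I * (ε : ℂ) ^ 3 * Q w * M w) ((ε : ℂ) ^ 4 * M w ^ 2)
      linarith
    have h5 : 0 ≤ A ^ 2 * ε ^ 3 := by positivity
    calc _ ≤ 9 * (A ^ 2 * ε ^ 3) := h1
      _ = 144 * A ^ 2 * ε ^ 3 * (1 / 16) := by ring
      _ ≤ _ := mul_le_mul_of_nonneg_left hT4 (by positivity)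
  have b2 : ‖w * X ^ 3 * (4 * (1 - w) + 3 * (w * X)) /
      ((1 - w) ^ 4 * (1 - w + w * X) ^ 2)‖ ≤ 14336 * A ^ 3 * ε ^ 3 := by
    have hden : (1 / 256 : ℝ) ≤ ‖(1 - w) ^ 4 * (1 - w + w * X) ^ 2‖ := by
      rw [norm_mul]
      calc (1 / 256 : ℝ) = 1 / 16 * (1 / 16) := by norm_num
        _ ≤ _ := mul_le_mul hT4 hTX2 (by norm_num) (norm_nonneg _)
    rw [norm_div, div_le_iff₀ (lt_of_lt_of_le (by norm_num) hden)]
    have h1 : ‖w * X ^ 3 * (4 * (1 - w) + 3 * (w * X))‖ ≤ 56 * (A ^ 3 * ε ^ 3) := by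
      rw [norm_mul, norm_mul, norm_pow]
      have h2 : ‖4 * (1 - w) + 3 * (w * X)‖ ≤ 7 := by
        refine (norm_add_le _ _).trans ?_
        rw [norm_mul, norm_mul 3, Complex.norm_ofNat, Complex.norm_ofNat]
        linarith
      have h3 : ‖X‖ ^ 3 ≤ 8 * (A ^ 3 * ε ^ 3) := by
        calc ‖X‖ ^ 3 ≤ (2 * (ε * A)) ^ 3 := pow_le_pow_left₀ (norm_nonneg _) hXb 3
          _ = 8 * (A ^ 3 * ε ^ 3) := by ring
      have h4 : ‖w‖ * ‖X‖ ^ 3 ≤ 8 * (A ^ 3 * ε ^ 3) := by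
        calc ‖w‖ * ‖X‖ ^ 3 ≤ 1 * ‖X‖ ^ 3 :=
              mul_le_mul_of_nonneg_right (by linarith) (by positivity)
          _ ≤ _ := by rw [one_mul]; exact h3
      calc ‖w‖ * ‖X‖ ^ 3 * ‖4 * (1 - w) + 3 * (w * X)‖ ≤ 8 * (A ^ 3 * ε ^ 3) * 7 :=
            mul_le_mul h4 h2 (norm_nonneg _) (by positivity)
        _ = 56 * (A ^ 3 * ε ^ 3) := by ring
    calc _ ≤ 56 * (A ^ 3 * ε ^ 3) := h1
      _ = 14336 * A ^ 3 * ε ^ 3 * (1 / 256) := by ring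
      _ ≤ _ := mul_le_mul_of_nonneg_left hden (by positivity)
  refine (norm_sub_le _ _).trans ((add_le_add b1 b2).trans (le_of_eq ?_))
  ring

end E3

open E3

theorem taskE3 : TaskE3 := by
  intro q m ρ C hρ hρ1 hq hm hq0 hm0 n J hnJ
  obtain ⟨Q, hQdef⟩ : ∃ Q : ℂ → ℂ, Q = fun z => ∑' j : ℕ, (q j : ℂ) * z ^ j := ⟨_, rfl⟩
  obtain ⟨M, hMdef⟩ : ∃ M : ℂ → ℂ, M = fun z => ∑' j : ℕ, (m j : ℂ) * z ^ j := ⟨_, rfl⟩
  have hPQ : PS Q q := by rw [hQdef]; exact PS_ser hρ hρ1 hq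
  have hPM : PS M m := by rw [hMdef]; exact PS_ser hρ hρ1 hm
  have hQd : DifferentiableOn ℂ Q (ball 0 1) := by rw [hQdef]; exact ser_diff hρ hρ1 hq
  have hMd : DifferentiableOn ℂ M (ball 0 1) := by rw [hMdef]; exact ser_diff hρ hρ1 hm
  have hC : 0 ≤ C := by
    have := hq 0
    rw [pow_zero, mul_one] at this
    exact (abs_nonneg _).trans this
  obtain ⟨A, hAdef⟩ : ∃ A : ℝ, A = C * (1 - ρ)⁻¹ := ⟨_, rfl⟩
  have hA : 0 ≤ A := by
    rw [hAdef]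
    exact mul_nonneg hC (inv_nonneg.2 (by linarith))
  have hQb : ∀ z : ℂ, ‖z‖ < 1 → ‖Q z‖ ≤ A := by
    intro z hz
    rw [hQdef, hAdef]
    exact ser_bound hρ hρ1 hq hz
  have hMb : ∀ z : ℂ, ‖z‖ < 1 → ‖M z‖ ≤ A := by
    intro z hz
    rw [hMdef, hAdef]
    exact ser_bound hρ hρ1 hm hz
  have hff : ∀ (ε : ℝ) (w : ℂ), ‖w‖ < 1 →
      ff q m ε w = w / (1 - w + w * (I * ε * Q w + (ε : ℂ) ^ 2 * M w)) ^ 2 := by
    intro ε w hw
    unfold ff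
    have h1 := ((hPQ w hw).mul_left (I * ε)).add ((hPM w hw).mul_left ((ε : ℂ) ^ 2))
    have h2 : ∑' j : ℕ, (I * ε * q j + (ε : ℂ) ^ 2 * m j) * w ^ j =
        I * ε * Q w + (ε : ℂ) ^ 2 * M w := by
      rw [← h1.tsum_eq]
      apply tsum_congr
      intro j
      ring
    rw [h2]
  have hc0 := PS_sh (PS_geo 1)
  have hc1 := PS_sh (PS_sh (PS_mul hPQ (PS_geo 2)))
  have hc2 := PS_sh (PS_sh (PS_mul hPM (PS_geo 2)))
  have hc3 := PS_sh (PS_sh (PS_sh (PS_mul hPQ (PS_mul hPQ (PS_geo 3)))))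
  set c0 := sh (fun n => ((n + 1).choose 1 : ℝ)) with hc0def
  set c1 := sh (sh (cv q (fun n => ((n + 2).choose 2 : ℝ)))) with hc1def
  set c2 := sh (sh (cv m (fun n => ((n + 2).choose 2 : ℝ)))) with hc2def
  set c3 := sh (sh (sh (cv q (cv q (fun n => ((n + 3).choose 3 : ℝ)))))) with hc3def
  have e0 : c0 n = n := by
    rw [hc0def]
    unfold sh
    rw [if_neg (by omega)]
    simp only [Nat.choose_one_right]
    have : n - 1 + 1 = n := by omega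
    rw [this]
  have e02 : c0 2 = 2 := by
    rw [hc0def]
    unfold sh
    norm_num
  have e22 : c2 2 = m 0 := by
    rw [hc2def]
    unfold sh
    rw [if_neg (by norm_num)]
    simp only [Nat.reduceSub, Nat.succ_ne_zero, if_false]
    rw [cv_range]
    simp
  have e32 : c3 2 = 0 := by
    rw [hc3def]
    unfold sh
    simp
  have e2 : 0 ≤ c2 n :=
    sh_nonneg (sh_nonneg (cv_nonneg hm0 (fun l => by positivity))) n
  have e3 : (∑ i ∈ Finset.range (J + 1), q i) ^ 2 * ((n - 2 * J).choose 3 : ℝ) ≤ c3 n := by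
    have : c3 n = cv q (cv q (fun l => ((l + 3).choose 3 : ℝ))) (n - 3) := by
      rw [hc3def]
      unfold sh
      have h3 : n - 1 - 1 - 1 = n - 3 := by omega
      rw [if_neg (by omega), if_neg (by omega), if_neg (by omega), h3]
    rw [this]
    exact cv_lower hq0 hnJ
  refine ⟨min 1 (1 / (8 * (A + 1))), (144 * A ^ 2 + 14336 * A ^ 3) * 2 ^ n, ?_, ?_⟩
  · apply lt_min one_pos
    positivity
  intro ε hε hε1
  have hε1' : ε ≤ 1 := (hε1.trans_le (min_le_left _ _)).le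
  have hεA : 8 * (ε * A) ≤ 1 := by
    have h1 : ε ≤ 1 / (8 * (A + 1)) := (hε1.trans_le (min_le_right _ _)).le
    rw [le_div_iff₀ (by positivity)] at h1
    nlinarith
  have hb : ∀ w : ℂ, ‖w‖ ≤ 1 / 2 → 1 - w ≠ 0 ∧
      1 - w + w * (I * ε * Q w + (ε : ℂ) ^ 2 * M w) ≠ 0 ∧
      ‖Rem Q M ε w‖ ≤ (144 * A ^ 2 + 14336 * A ^ 3) * ε ^ 3 := fun w hw =>
    rem_bound hA hε hε1' hεA hw (hQb w (by linarith)) (hMb w (by linarith))
  have hRd : DifferentiableOn ℂ (Rem Q M ε) (closedBall 0 (1 / 2)) := by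
    intro w hw
    have hw' : ‖w‖ ≤ 1 / 2 := by simpa using hw
    obtain ⟨h1, h2, _⟩ := hb w hw'
    have hwb : ball (0 : ℂ) 1 ∈ 𝓝 w := isOpen_ball.mem_nhds (by simp; linarith)
    have hQw : DifferentiableAt ℂ Q w := hQd.differentiableAt hwb
    have hMw : DifferentiableAt ℂ M w := hMd.differentiableAt hwb
    have hXw : DifferentiableAt ℂ (fun w => I * ε * Q w + (ε : ℂ) ^ 2 * M w) w :=
      (hQw.const_mul _).add (hMw.const_mul _)
    have hid : DifferentiableAt ℂ (fun w : ℂ => w) w := differentiableAt_id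
    have hT : DifferentiableAt ℂ (fun w : ℂ => 1 - w) w := hid.const_sub 1
    apply DifferentiableAt.differentiableWithinAt
    unfold Rem
    apply DifferentiableAt.sub
    · apply DifferentiableAt.div _ (hT.pow 4) (pow_ne_zero 4 h1)
      exact (((hQw.const_mul _).mul hMw).add ((hMw.pow 2).const_mul _)).const_mul 3
    · have hnum : DifferentiableAt ℂ (fun w => w * (I * ε * Q w + (ε : ℂ) ^ 2 * M w) ^ 3 *
          (4 * (1 - w) + 3 * (w * (I * ε * Q w + (ε : ℂ) ^ 2 * M w)))) w :=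
        (hid.mul (hXw.pow 3)).mul ((hT.const_mul 4).add ((hid.mul hXw).const_mul 3))
      have hden : DifferentiableAt ℂ (fun w => (1 - w) ^ 4 *
          (1 - w + w * (I * ε * Q w + (ε : ℂ) ^ 2 * M w)) ^ 2) w :=
        (hT.pow 4).mul ((hT.add (hid.mul hXw)).pow 2)
      exact hnum.div hden (mul_ne_zero (pow_ne_zero 4 h1) (pow_ne_zero 2 h2))
  have hRan : AnalyticAt ℂ (Rem Q M ε) 0 :=
    hRd.analyticAt (closedBall_mem_nhds _ (by norm_num))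
  set R : ℂ → ℂ := fun w => w ^ 3 * Rem Q M ε w with hRdef
  have hRan' : AnalyticAt ℂ R 0 := (analyticAt_id.pow 3).mul hRan
  have hco : ∀ k, coeff k (ff q m ε) = ((c0 k : ℂ) - 2 * I * ε * (c1 k : ℂ) -
      2 * (ε : ℂ) ^ 2 * (c2 k : ℂ) - 3 * (ε : ℂ) ^ 2 * (c3 k : ℂ)) + coeff k R := by
    intro k
    apply I1.hasSum_iff_at (c := fun k => ((c0 k : ℂ) - 2 * I * ε * (c1 k : ℂ) -
      2 * (ε : ℂ) ^ 2 * (c2 k : ℂ) - 3 * (ε : ℂ) ^ 2 * (c3 k : ℂ)) + coeff k R)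
    filter_upwards [I1.hasSum_of_an hRan', Metric.ball_mem_nhds (0 : ℂ) (by norm_num : (0 : ℝ) < 1 / 2)]
      with z hz hz2
    have hz3 : ‖z‖ < 1 / 2 := by simpa using hz2
    have hz1 : ‖z‖ < 1 := by linarith
    obtain ⟨h1, h2, _⟩ := hb z hz3.le
    rw [hff ε z hz1, expand Q M ε z h1 h2]
    have hs := ((((hc0 z hz1).sub ((hc1 z hz1).mul_left (2 * I * ε))).sub
      ((hc2 z hz1).mul_left (2 * (ε : ℂ) ^ 2))).sub ((hc3 z hz1).mul_left (3 * (ε : ℂ) ^ 2))).add hz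
    have e : (fun k : ℕ => (((c0 k : ℂ) - 2 * I * ε * (c1 k : ℂ) -
        2 * (ε : ℂ) ^ 2 * (c2 k : ℂ) - 3 * (ε : ℂ) ^ 2 * (c3 k : ℂ)) + coeff k R) * z ^ k) =
        fun k : ℕ => (c0 k : ℂ) * z ^ k - 2 * I * ε * ((c1 k : ℂ) * z ^ k) -
          2 * (ε : ℂ) ^ 2 * ((c2 k : ℂ) * z ^ k) - 3 * (ε : ℂ) ^ 2 * ((c3 k : ℂ) * z ^ k) +
          coeff k R * z ^ k := by
      funext k
      ring
    rw [e]
    exact hs
  have hre : ∀ k, (coeff k (ff q m ε)).re = c0 k - 2 * ε ^ 2 * c2 k - 3 * ε ^ 2 * c3 k +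
      (coeff k R).re := by
    intro k
    rw [hco k]
    have h1 : ((c0 k : ℂ) - 2 * I * ε * (c1 k : ℂ) -
        2 * (ε : ℂ) ^ 2 * (c2 k : ℂ) - 3 * (ε : ℂ) ^ 2 * (c3 k : ℂ)) =
        ((c0 k - 2 * ε ^ 2 * c2 k - 3 * ε ^ 2 * c3 k : ℝ) : ℂ) +
          ((-(2 * ε * c1 k) : ℝ) : ℂ) * I := by
      push_cast
      ring
    rw [h1, add_re, add_re, ofReal_re, re_ofReal_mul, I_re, mul_zero, add_zero]
  constructor
  · have hR2 : coeff 2 R = 0 := by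
      have h1 := I1.coeff_shift (g := fun w => w * Rem Q M ε w) (analyticAt_id.mul hRan) 0
      have h2 : (fun z : ℂ => z ^ 2 * (fun w => w * Rem Q M ε w) z) = R := by
        funext z
        rw [hRdef]
        ring
      rw [h2] at h1
      rw [zero_add] at h1
      rw [h1, coeff, iteratedDeriv_zero]
      simp
    rw [sub_re, hre 2, hR2, e02, e22, e32]
    norm_num
  · have hRn : ‖coeff n R‖ ≤ (144 * A ^ 2 + 14336 * A ^ 3) * ε ^ 3 * 2 ^ n := by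
      apply coeff_cauchy
      · exact (differentiableOn_id.pow 3).mul hRd
      · intro z hz
        rw [hRdef]
        show ‖z ^ 3 * Rem Q M ε z‖ ≤ _
        rw [norm_mul, norm_pow]
        have h1 : ‖z‖ ^ 3 ≤ 1 := pow_le_one₀ (norm_nonneg _) (by linarith)
        calc ‖z‖ ^ 3 * ‖Rem Q M ε z‖ ≤ 1 * ‖Rem Q M ε z‖ :=
              mul_le_mul_of_nonneg_right h1 (norm_nonneg _)
          _ ≤ _ := by rw [one_mul]; exact (hb z hz).2.2
    have h1 := (Complex.abs_re_le_norm (coeff n R)).trans hRn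
    have h2 := (abs_le.1 h1).2
    rw [sub_re, hre n, e0]
    have h3 : ((n : ℂ)).re = n := Complex.natCast_re n
    rw [h3]
    have h4 : 0 ≤ 2 * ε ^ 2 * c2 n := by positivity
    have h5 := mul_le_mul_of_nonneg_left e3 (by positivity : 0 ≤ 3 * ε ^ 2)
    nlinarith

end Pool.Agent.H33R3.Bom
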